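import Mathlib
import Pool.Agent.H83.HMP

set_option autoImplicit false

namespace Pool.Agent.Results.MP_a67be6_gt.NotE

open Set Filter Topology

/-- Closed and discrete. -/
def ClosedDiscrete {X : Type} [TopologicalSpace X] (A : Set X) : Prop :=
  IsClosed A ∧ DiscreteTopology A

/-- `e`-separable. -/
def SmallESep (X : Type) [TopologicalSpace X] : Prop :=
  ∃ E : ℕ → Set X, (∀ n, ClosedDiscrete (E n)) ∧ Dense (⋃ n, E n)

/-- `E`-separable. -/
def BigESep (X : Type) [TopologicalSpace X] : Prop :=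
  ∀ D : ℕ → Set X, (∀ n, Dense (D n)) →
    ∃ E : ℕ → Set X, (∀ n, E n ⊆ D n ∧ ClosedDiscrete (E n)) ∧ Dense (⋃ n, E n)

/-- points with at most `n` nonzero coordinates, all at most `n` -/
def K (n : ℕ) : Set ((ℕ → Bool) → ℕ) :=
  {x | (∀ i, x i ≤ n) ∧ ∀ F : Finset (ℕ → Bool), (∀ i ∈ F, x i ≠ 0) → F.card ≤ n}

theorem K_compact (n : ℕ) : IsCompact (K n) := by
  refine (isCompact_univ_pi fun _ => (finite_le_nat n).isCompact).of_isClosed_subset ?_
    fun x hx i _ => hx.1 i
  rw [← isOpen_compl_iff, isOpen_iff_mem_nhds]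
  intro x hx
  have hev : ∀ i, ∀ᶠ y in 𝓝 x, y i = x i := fun i =>
    (isOpen_discrete {x i}).preimage (continuous_apply (A := fun _ => ℕ) i) |>.mem_nhds rfl
  simp only [K, mem_compl_iff, mem_setOf_eq, not_and_or, not_forall] at hx
  rcases hx with ⟨i, hi⟩ | ⟨F, hF, hc⟩
  · filter_upwards [hev i] with y hy h
    exact hi (hy ▸ h.1 i)
  · filter_upwards [(eventually_all_finset F).2 fun i _ => hev i] with y hy h
    exact hc (h.2 F fun i hi => by rw [hy i hi]; exact hF i hi)

theorem result : SmallESep ((ℕ → Bool) → ℕ) ∧ ¬ BigESep ((ℕ → Bool) → ℕ) := by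
  classical
  refine ⟨?_, fun h => ?_⟩
  · obtain ⟨D, hD, hag⟩ := H83.HMP.exists_countable_agree ℕ
    obtain ⟨e, rfl⟩ := hD.exists_eq_range ⟨_, (hag 0 ∅).choose_spec.1⟩
    refine ⟨fun n => {e n}, fun n => ⟨isClosed_singleton, inferInstance⟩, ?_⟩
    rw [iUnion_singleton_eq_range]
    exact H83.HMP.dense_of_agree hag
  · obtain ⟨E, hE, hd⟩ := h (fun _ => {x | (Function.support x).Finite}) fun _ =>
      H83.HMP.dense_of_agree fun x F => ⟨fun i => if i ∈ F then x i else 0,
        F.finite_toSet.subset fun i hi => by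
          by_contra h
          exact hi (if_neg h), fun i hi => if_pos hi⟩
    have hc : ∀ n, (E n).Countable := fun n => by
      have : ∀ m, (K m ∩ E n).Finite := fun m => ((K_compact m).inter_right (hE n).2.1).finite
        ((isDiscrete_iff_discreteTopology.2 (hE n).2.2).mono inter_subset_right)
      refine (countable_iUnion fun m => (this m).countable).mono fun x hx => ?_
      have hf := (hE n).1 hx
      obtain ⟨b, hb⟩ := (hf.image x).bddAbove
      refine mem_iUnion.2 ⟨max b hf.toFinset.card, ⟨fun i => ?_, fun F hF => ?_⟩, hx⟩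
      · by_cases hi : x i = 0
        · simp [hi]
        · exact le_max_of_le_left (hb ⟨i, hi, rfl⟩)
      · exact le_max_of_le_right (Finset.card_le_card fun i hi => by simpa using hF i hi)
    have hS : (⋃ x ∈ ⋃ n, E n, Function.support x).Countable :=
      (countable_iUnion hc).biUnion fun x hx => by
        obtain ⟨n, hn⟩ := mem_iUnion.1 hx
        exact Finite.countable ((hE n).1 hn)
    obtain ⟨i, hi⟩ : ∃ i, i ∉ ⋃ x ∈ ⋃ n, E n, Function.support x := by
      by_contra h
      push Not at h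
      haveI : Uncountable (ℕ → Bool) := by
        rw [← Cardinal.aleph0_lt_mk_iff]; simp [Cardinal.aleph0_lt_continuum]
      exact not_countable_univ (hS.mono fun i _ => h i)
    obtain ⟨x, hx, hxE⟩ := hd.inter_open_nonempty {x | x i ≠ 0}
      (isOpen_ne_fun (continuous_apply i) continuous_const) ⟨1, by simp⟩
    exact hi (mem_biUnion hxE hx)

end Pool.Agent.Results.MP_a67be6_gt.NotE
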